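import Pool.Agent.H18.HX.Targets

/-!
# HX, row PEI: the degree of a self-map
-/

open MvPolynomial
open Pool.Agent.H12.ZD (pmap v O Res DenseOrbit NoInv)
open Pool.Agent.H18.HIT Pool.Agent.H18.HX

namespace Pool.Agent.H74.HX
namespace PEI

section

variable {k B : Type} [Field k] [CommRing B] [IsDomain B] [Algebra k B] [Algebra.FiniteType k B]

/-- a finitely generated domain is algebraic over the image of an injective endomorphism -/
theorem alg_sub (φ : B →ₐ[k] B) (hφ : Function.Injective φ) :
    ∃ S : Subalgebra k B, S ≤ φ.range ∧ Algebra.IsAlgebraic S B := by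
  obtain ⟨ι, x, hx⟩ := exists_isTranscendenceBasis' k B
  have h1 : AlgebraicIndependent k (φ ∘ x) := hx.1.map' hφ
  have h2 : IsTranscendenceBasis k (φ ∘ x) := by
    apply h1.isTranscendenceBasis_of_trdeg_le
    · exact trdeg_lt_aleph0_of_finiteType
    · rw [← hx.cardinalMk_eq_trdeg]
  refine ⟨Algebra.adjoin k (Set.range (φ ∘ x)), ?_, h2.isAlgebraic⟩
  rw [Algebra.adjoin_le_iff]
  rintro _ ⟨i, rfl⟩
  exact ⟨x i, rfl⟩

/-- multiples in the image -/
theorem exists_mul (φ : B →ₐ[k] B) (hφ : Function.Injective φ) (b : B) (hb : b ≠ 0) :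
    ∃ s t : B, s ≠ 0 ∧ φ s = b * t := by
  obtain ⟨S, hS, hS'⟩ := alg_sub φ hφ
  obtain ⟨r, hr, hdvd⟩ := (hS'.isAlgebraic b).exists_nonzero_dvd (mem_nonZeroDivisors_of_ne_zero hb)
  obtain ⟨s, hs⟩ := hS r.2
  obtain ⟨t, ht⟩ := hdvd
  refine ⟨s, t, ?_, ?_⟩
  · rintro rfl
    apply hr
    apply Subtype.ext
    rw [← hs]
    exact map_zero φ
  · rw [← ht]
    exact hs

theorem main [CharZero k] (φ : B →ₐ[k] B) (hφ : Function.Injective φ) :
    ∃ (e : ℕ) (θ : B), 1 ≤ e ∧
      (∀ u : B, ∃ (s : B) (c : Fin e → B), s ≠ 0 ∧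
        φ s * u = ∑ j : Fin e, θ ^ (j : ℕ) * φ (c j)) ∧
      ∀ c : Fin e → B, (∑ j : Fin e, θ ^ (j : ℕ) * φ (c j)) = 0 → ∀ j, c j = 0 := by
  classical
  let K := FractionRing B
  have hBK : Function.Injective (algebraMap B K) := IsFractionRing.injective B K
  have hinj : Function.Injective ((algebraMap B K).comp φ.toRingHom) := hBK.comp hφ
  let ψ : K →+* K := IsFractionRing.lift (K := K) hinj
  have hψ : ∀ b : B, ψ (algebraMap B K b) = algebraMap B K (φ b) := fun b =>
    IsFractionRing.lift_algebraMap hinj b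
  let F : Subfield K := ψ.fieldRange
  have hF : ∀ b : B, algebraMap B K (φ b) ∈ F := fun b => ⟨algebraMap B K b, hψ b⟩
  have : CharZero B := charZero_of_injective_algebraMap (FaithfulSMul.algebraMap_injective k B)
  have : CharZero K := charZero_of_injective_algebraMap hBK
  have : CharZero F := (algebraMap F K).charZero
  obtain ⟨G, hG⟩ := (inferInstance : Algebra.FiniteType k B).out
  -- algebraic
  have halg : ∀ b : B, IsIntegral F (algebraMap B K b) := by
    intro b
    obtain ⟨S, hS, hS'⟩ := alg_sub φ hφ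
    obtain ⟨p, hp, hpb⟩ := hS'.isAlgebraic b
    let g : S →+* F :=
      { toFun := fun s => ⟨algebraMap B K s, by
          obtain ⟨t, ht⟩ := hS s.2
          have ht' : φ t = (s : B) := ht
          rw [← ht']
          exact hF t⟩
        map_one' := by apply Subtype.ext; exact map_one _
        map_mul' := fun x y => by apply Subtype.ext; exact map_mul (algebraMap B K) _ _
        map_zero' := by apply Subtype.ext; exact map_zero _
        map_add' := fun x y => by apply Subtype.ext; exact map_add (algebraMap B K) _ _ }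
    have hg : Function.Injective g := by
      intro x y hxy
      apply Subtype.ext
      apply hBK
      exact congrArg (fun z : F => (z : K)) hxy
    apply IsAlgebraic.isIntegral
    refine ⟨p.map g, ?_, ?_⟩
    · rw [Ne, Polynomial.map_eq_zero_iff hg]
      exact hp
    · have h1 : (algebraMap F K).comp g = (algebraMap B K).comp (algebraMap S B) := by
        ext s
        rfl
      rw [Polynomial.aeval_def, Polynomial.eval₂_map, h1, ← Polynomial.hom_eval₂]
      have h2 : Polynomial.eval₂ (algebraMap S B) b p = 0 := hpb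
      rw [h2, map_zero]
  -- generation
  have htop : IntermediateField.adjoin F ((algebraMap B K) '' (G : Set B)) = ⊤ := by
    rw [eq_top_iff]
    intro y _
    have hmem : ∀ b : B, algebraMap B K b ∈
        IntermediateField.adjoin F ((algebraMap B K) '' (G : Set B)) := by
      intro b
      have hb : b ∈ Algebra.adjoin k (G : Set B) := by rw [hG]; exact Algebra.mem_top
      induction hb using Algebra.adjoin_induction with
      | mem x hx => exact IntermediateField.subset_adjoin F _ ⟨x, hx, rfl⟩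
      | algebraMap r =>
        have h1 : algebraMap B K (algebraMap k B r) ∈ F := by
          have h2 := hF (algebraMap k B r)
          rwa [φ.commutes] at h2
        exact IntermediateField.algebraMap_mem _ (⟨_, h1⟩ : F)
      | add x y _ _ hx hy => rw [map_add]; exact add_mem hx hy
      | mul x y _ _ hx hy => rw [map_mul]; exact mul_mem hx hy
    obtain ⟨a, b, _, rfl⟩ := IsFractionRing.div_surjective (A := B) y
    exact div_mem (hmem a) (hmem b)
  have hfd : FiniteDimensional F K := by
    have h1 : FiniteDimensional F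
        (IntermediateField.adjoin F ((algebraMap B K) '' (G : Set B))) := by
      have : Finite ((algebraMap B K) '' (G : Set B)) := (G.finite_toSet.image _).to_subtype
      apply IntermediateField.finiteDimensional_adjoin
      rintro _ ⟨b, _, rfl⟩
      exact halg b
    rw [htop] at h1
    exact LinearEquiv.finiteDimensional (IntermediateField.topEquiv (F := F) (E := K)).toLinearEquiv
  let pb := Field.powerBasisOfFiniteOfSeparable F K
  -- the generator
  obtain ⟨b1, b2, hb2, hgen⟩ := IsFractionRing.div_surjective (A := B) pb.gen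
  have hb2' : b2 ≠ 0 := nonZeroDivisors.ne_zero hb2
  obtain ⟨s0, t0, hs0, hst⟩ := exists_mul φ hφ b2 hb2'
  have hφ0 : φ s0 ≠ 0 := fun h => hs0 (hφ (by rw [h, map_zero]))
  have hφ0K : algebraMap B K (φ s0) ≠ 0 := fun h => hφ0 (hBK (by rw [h, map_zero]))
  have hb2K : algebraMap B K b2 ≠ 0 := fun h => hb2' (hBK (by rw [h, map_zero]))
  have hθ : algebraMap B K (b1 * t0) = algebraMap B K (φ s0) * pb.gen := by
    rw [← hgen, hst, map_mul, map_mul, mul_div_assoc', eq_div_iff hb2K]
    ring
  have hpow : ∀ j : ℕ, algebraMap B K ((b1 * t0) ^ j) =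
      algebraMap B K (φ (s0 ^ j)) * pb.gen ^ j := by
    intro j
    rw [map_pow, hθ, mul_pow, map_pow, map_pow]
  have hφj : ∀ j : ℕ, algebraMap B K (φ (s0 ^ j)) ≠ 0 := by
    intro j
    rw [map_pow, map_pow]
    exact pow_ne_zero _ hφ0K
  refine ⟨pb.dim, b1 * t0, pb.dim_pos, ?_, ?_⟩
  · intro u
    have h1 := pb.basis.sum_repr (algebraMap B K u)
    have h2 : ∀ j : Fin pb.dim, ∃ y : K, ψ y = ((pb.basis.repr (algebraMap B K u) j : F) : K) :=
      fun j => (pb.basis.repr (algebraMap B K u) j).2
    choose y hy using h2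
    -- coefficients for the powers of the new generator
    let z : Fin pb.dim → K := fun j => y j / algebraMap B K (s0 ^ (j : ℕ))
    obtain ⟨s, hs⟩ := IsLocalization.exist_integer_multiples_of_finite (nonZeroDivisors B) z
    have hs' : ∀ j, ∃ c : B, algebraMap B K c = algebraMap B K s * z j := by
      intro j
      obtain ⟨c, hc⟩ := hs j
      refine ⟨c, ?_⟩
      rw [hc, Algebra.smul_def]
    choose c hc using hs'
    refine ⟨s, c, nonZeroDivisors.coe_ne_zero s, ?_⟩
    apply hBK
    rw [map_mul, map_sum]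
    have h3 : algebraMap B K u = ∑ j : Fin pb.dim, ψ (y j) * pb.gen ^ (j : ℕ) := by
      rw [← h1]
      refine Finset.sum_congr rfl fun j _ => ?_
      rw [hy, pb.coe_basis]
      rfl
    rw [h3, Finset.mul_sum]
    refine Finset.sum_congr rfl fun j _ => ?_
    rw [map_mul, hpow, ← hψ (c j), hc, map_mul, hψ]
    have h4 : ψ (z j) * algebraMap B K (φ (s0 ^ (j : ℕ))) = ψ (y j) := by
      rw [← hψ, ← map_mul]
      have h5 : algebraMap B K (s0 ^ (j : ℕ)) ≠ 0 := by
        intro h
        exact pow_ne_zero _ hs0 (hBK (by rw [h, map_zero]))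
      rw [div_mul_cancel₀ _ h5]
    rw [← h4]
    ring
  · intro c hc j
    have h1 : ∑ j : Fin pb.dim, algebraMap B K (φ (c j * s0 ^ (j : ℕ))) * pb.gen ^ (j : ℕ) = 0 := by
      have h2 := congrArg (algebraMap B K) hc
      rw [map_sum, map_zero] at h2
      rw [← h2]
      refine Finset.sum_congr rfl fun j _ => ?_
      rw [map_mul (algebraMap B K), hpow, map_mul φ, map_mul (algebraMap B K)]
      ring
    have h3 := Fintype.linearIndependent_iff.mp pb.basis.linearIndependent
      (fun j => (⟨_, hF (c j * s0 ^ (j : ℕ))⟩ : F)) (by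
        rw [← h1]
        refine Finset.sum_congr rfl fun j _ => ?_
        rw [pb.coe_basis]
        rfl) j
    have h4 : algebraMap B K (φ (c j * s0 ^ (j : ℕ))) = 0 := congrArg (fun z : F => (z : K)) h3
    have h5 : φ (c j * s0 ^ (j : ℕ)) = 0 := hBK (by rw [h4, map_zero])
    have h6 : c j * s0 ^ (j : ℕ) = 0 := hφ (by rw [h5, map_zero])
    exact (mul_eq_zero.mp h6).resolve_right (pow_ne_zero _ hs0)

end

end PEI

theorem pf_PEI : T_PEI := by
  intro L k _ _ I _ f hf
  let φ : (Po L k ⧸ I) →ₐ[k] (Po L k ⧸ I) :=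
    Ideal.quotientMapₐ I (aeval f) (fun c hc => hf.inv c hc)
  have hφ : ∀ c : Po L k, φ (Ideal.Quotient.mk I c) = Ideal.Quotient.mk I (aeval f c) := fun c => rfl
  have hinj : Function.Injective φ := by
    rw [injective_iff_map_eq_zero]
    intro b hb
    obtain ⟨c, rfl⟩ := Ideal.Quotient.mk_surjective b
    rw [hφ, Ideal.Quotient.eq_zero_iff_mem] at hb
    rw [Ideal.Quotient.eq_zero_iff_mem]
    exact hf.inj c hb
  obtain ⟨e, θ, he, h1, h2⟩ := PEI.main φ hinj
  obtain ⟨θ, rfl⟩ := Ideal.Quotient.mk_surjective θ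
  refine ⟨e, θ, he, fun u => ?_, fun c hc j => ?_⟩
  · obtain ⟨s, c, hs, hsc⟩ := h1 (Ideal.Quotient.mk I u)
    obtain ⟨s, rfl⟩ := Ideal.Quotient.mk_surjective s
    choose c' hc' using fun j => Ideal.Quotient.mk_surjective (c j)
    refine ⟨s, c', fun h => hs (by rw [Ideal.Quotient.eq_zero_iff_mem]; exact h), ?_⟩
    rw [← Ideal.Quotient.eq_zero_iff_mem, map_sub, map_mul, ← hφ, hsc, map_sum, sub_eq_zero]
    refine Finset.sum_congr rfl fun j _ => ?_
    rw [map_mul, map_pow, ← hφ, hc']
  · rw [← Ideal.Quotient.eq_zero_iff_mem]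
    apply h2 (fun j => Ideal.Quotient.mk I (c j))
    rw [← Ideal.Quotient.eq_zero_iff_mem, map_sum] at hc
    rw [← hc]
    refine Finset.sum_congr rfl fun j _ => ?_
    rw [map_mul, map_pow, ← hφ]

end Pool.Agent.H74.HX
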